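import Pool.Agent.Helper64.LN.GoalsB

set_option autoImplicit false

/-! Packet LN-SZ: separation of ends in terms of points on invariant curves. -/

open Topology Filter Set Metric UpperHalfPlane
open scoped MatrixGroups

namespace Pool.Agent.Helper83.LN

open Pool.Agent.Helper64.LN

theorem eig_of_qf (g : SL(2, ℝ)) (v : ℝ × ℝ) (hv : v ≠ 0) (h : qf g v = 0) :
    ∃ μ : ℝ, g 0 0 * v.1 + g 0 1 * v.2 = μ * v.1 ∧ g 1 0 * v.1 + g 1 1 * v.2 = μ * v.2 := by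
  unfold qf at h
  by_cases h1 : v.1 = 0
  · have h2 : v.2 ≠ 0 := by
      intro h2
      exact hv (Prod.ext h1 h2)
    refine ⟨(g 1 0 * v.1 + g 1 1 * v.2) / v.2, ?_, ?_⟩
    · rw [h1] at h ⊢
      have h3 : v.2 * (g 0 0 * 0 + g 0 1 * v.2) = 0 := by linarith
      rcases mul_eq_zero.1 h3 with h4 | h4
      · exact absurd h4 h2
      · rw [h4, mul_zero]
    · rw [div_mul_cancel₀ _ h2]
  · refine ⟨(g 0 0 * v.1 + g 0 1 * v.2) / v.1, ?_, ?_⟩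
    · rw [div_mul_cancel₀ _ h1]
    · rw [div_mul_eq_mul_div, eq_div_iff h1]
      linarith

theorem sign_iff {P Q p q : ℝ} (h1 : 0 < P * p) (h2 : 0 < Q * q) : P * Q < 0 ↔ p * q < 0 := by
  have h3 : 0 < (P * Q) * (p * q) := by
    have := mul_pos h1 h2
    calc (0 : ℝ) < P * p * (Q * q) := this
      _ = (P * Q) * (p * q) := by ring
  constructor
  · intro h
    by_contra hc
    have := mul_nonpos_of_nonpos_of_nonneg h.le (not_lt.1 hc)
    linarith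
  · intro h
    by_contra hc
    have := mul_nonpos_of_nonneg_of_nonpos (not_lt.1 hc) h.le
    linarith

theorem qf_ne (hG1 : GoalG1) {Γ : Subgroup SL(2, ℝ)} (hΓ : Good Γ) {c a : SL(2, ℝ)} (hc : c ∈ Γ)
    (ha : a ∈ Γ) (hn : Nc (mh c) (mh a)) {v : ℝ × ℝ} (hv : Att a v) : qf c v ≠ 0 := by
  intro h0
  obtain ⟨μ, m1, m2⟩ := eig_of_qf c v hv.1 h0
  obtain ⟨ν, -, n1, n2⟩ := hv.2
  exact hn (hG1 Γ hΓ c hc a ha v μ ν hv.1 m1 m2 n1 n2)

theorem tr_of_hy {c : SL(2, ℝ)} (h : hy (mh c)) : 2 < |c 0 0 + c 1 1| := by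
  obtain ⟨g, h1, h2⟩ := h
  rcases (mh_eq_iff c g).1 h1 with rfl | rfl
  · exact h2
  · have e : (-g : SL(2, ℝ)) 0 0 + (-g : SL(2, ℝ)) 1 1 = -(g 0 0 + g 1 1) := by
      simp only [Matrix.SpecialLinearGroup.coe_neg, Matrix.neg_apply]
      ring
    rw [e, abs_neg]
    exact h2

theorem goalSZ (hG1 : GoalG1) (hG2 : GoalG2) (hSPC : GoalSPC) (hCR1 : GoalCR1)
    (hCR2 : GoalCR2) : GoalSZ := by
  intro Γ hΓ c hc a ha b hb hyc hca hcb σ η hσ hη hσc hηc s t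
  obtain ⟨c', hc', rfl⟩ := hc
  obtain ⟨a', ha', rfl⟩ := ha
  obtain ⟨b', hb', rfl⟩ := hb
  have hc'' : c' ∈ Γ := hc'
  have ha'' : a' ∈ Γ := ha'
  have hb'' : b' ∈ Γ := hb'
  have a1 : mh a' ≠ 1 := by
    intro h
    apply hca
    rw [h, mul_one, one_mul]
  have b1 : mh b' ≠ 1 := by
    intro h
    apply hcb
    rw [h, mul_one, one_mul]
  obtain ⟨-, v, hv⟩ := (hG2 Γ hΓ).1 a' ha'' a1
  obtain ⟨-, w, hw⟩ := (hG2 Γ hΓ).1 b' hb'' b1
  have hqv := qf_ne hG1 hΓ hc'' ha'' hca hv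
  have hqw := qf_ne hG1 hΓ hc'' hb'' hcb hw
  have p1 := hSPC c' a' v σ a1 hv hqv hσ (fun r h0 => hσc r ((ax_mh c' (σ r)).2 h0)) s
  have p2 := hSPC c' b' w η b1 hw hqw hη (fun r h0 => hηc r ((ax_mh c' (η r)).2 h0)) t
  rw [Sz_mh, ← sign_iff p1 p2]
  have htr := tr_of_hy hyc
  constructor
  · intro h
    by_contra hcon
    have h3 : 0 < qf c' v * qf c' w :=
      lt_of_le_of_ne (not_lt.1 hcon) (mul_ne_zero hqv hqw).symm
    exact hCR2 c' a' b' v w htr a1 b1 hv hw h3 h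
  · exact hCR1 c' a' b' v w htr a1 b1 hv hw

end Pool.Agent.Helper83.LN
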